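import Pool.Agent.Helper82.DG.Base

/-!
# Dark grids, leaf C: rectangles with covered sides
-/

set_option autoImplicit false

namespace Pool.Agent.Helper82.DG

open Pool.Agent.Helper18.RAC

variable {V : Type*}

/-- an open rectangle whose sides are covered by edges -/
structure Rect (H : SimpleGraph V) (X Y : V → ℝ) (x1 x2 y1 y2 : ℝ) : Prop where
  hx : x1 < x2
  hy : y1 < y2
  l : ∃ p p', H.Adj p p' ∧ X p = x1 ∧ X p' = x1 ∧ Y p < y1 ∧ y2 < Y p'
  r : ∃ p p', H.Adj p p' ∧ X p = x2 ∧ X p' = x2 ∧ Y p < y1 ∧ y2 < Y p'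
  b : ∃ p p', H.Adj p p' ∧ Y p = y1 ∧ Y p' = y1 ∧ X p < x1 ∧ x2 < X p'
  t : ∃ p p', H.Adj p p' ∧ Y p = y2 ∧ Y p' = y2 ∧ X p < x1 ∧ x2 < X p'

theorem negX_draw {H : SimpleGraph V} {X Y : V → ℝ} {E F : ℝ} (h : ADraw H X Y E F) :
    ADraw H (fun v => -X v) Y E F where
  E_pos := h.E_pos
  F_pos := h.F_pos
  vtx := fun u v w huv hu hv t h0 h1 h2 h3 =>
    h.vtx u v w huv hu hv t h0 h1 (by linarith) h3
  crs := fun u v x y huv hxy hne s t h1 h2 h3 h4 h5 h6 => by
    have := h.crs u v x y huv hxy hne s t h1 h2 h3 h4 (by linarith) h6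
    linarith

theorem Rect.negX {H : SimpleGraph V} {X Y : V → ℝ} {x1 x2 y1 y2 : ℝ}
    (h : Rect H X Y x1 x2 y1 y2) : Rect H (fun v => -X v) Y (-x2) (-x1) y1 y2 where
  hx := by have := h.hx; linarith
  hy := h.hy
  l := by
    obtain ⟨p, p', h1, h2, h3, h4, h5⟩ := h.r
    exact ⟨p, p', h1, by rw [h2], by rw [h3], h4, h5⟩
  r := by
    obtain ⟨p, p', h1, h2, h3, h4, h5⟩ := h.l
    exact ⟨p, p', h1, by rw [h2], by rw [h3], h4, h5⟩
  b := by
    obtain ⟨p, p', h1, h2, h3, h4, h5⟩ := h.b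
    exact ⟨p', p, h1.symm, h3, h2, by linarith, by linarith⟩
  t := by
    obtain ⟨p, p', h1, h2, h3, h4, h5⟩ := h.t
    exact ⟨p', p, h1.symm, h3, h2, by linarith, by linarith⟩

theorem Rect.swap {H : SimpleGraph V} {X Y : V → ℝ} {x1 x2 y1 y2 : ℝ}
    (h : Rect H X Y x1 x2 y1 y2) : Rect H Y X y1 y2 x1 x2 where
  hx := h.hy
  hy := h.hx
  l := h.b
  r := h.t
  b := h.l
  t := h.r

/-- No exit through the side `X = x2`. -/
theorem Rect.no_exit {H : SimpleGraph V} {X Y : V → ℝ} {E F x1 x2 y1 y2 : ℝ}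
    (hd : ADraw H X Y E F) (hr : Rect H X Y x1 x2 y1 y2) {p p' : V} (hp : H.Adj p p')
    (hX : X p < X p') (hY : Y p < Y p') {τ : ℝ} (hτ0 : 0 < τ) (hτ1 : τ ≤ 1)
    (h1 : (1 - τ) * X p + τ * X p' = x2) (h2 : y1 < (1 - τ) * Y p + τ * Y p')
    (h3 : (1 - τ) * Y p + τ * Y p' ≤ y2) : False := by
  obtain ⟨q, q', hq, hqx, hqx', hqy, hqy'⟩ := hr.r
  have hden : 0 < Y q' - Y q := by linarith
  set y0 : ℝ := (1 - τ) * Y p + τ * Y p' with hy0
  rcases hτ1.eq_or_lt with heq | hlt
  · -- the vertex `p'` lies on the side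
    have hY' : y0 = Y p' := by rw [hy0, heq]; ring
    have hX' : X p' = x2 := by rw [← h1, heq]; ring
    refine hd.vtx q q' p' hq ?_ ?_ ((y0 - Y q) / (Y q' - Y q)) (div_nonneg (by linarith) hden.le)
      ((div_le_one hden).2 (by linarith)) ?_ ?_
    · rintro rfl
      linarith
    · rintro rfl
      linarith
    · rw [hqx, hqx', hX']
      ring
    · rw [← hY']
      field_simp
      ring
  · have key := hd.crs p p' q q' hp hq (by
      intro h4
      rw [Sym2.eq_iff] at h4
      rcases h4 with ⟨h4, h5⟩ | ⟨h4, h5⟩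
      · rw [h4, h5, hqx, hqx'] at hX
        exact lt_irrefl _ hX
      · rw [h4, h5, hqx, hqx'] at hX
        exact lt_irrefl _ hX) τ ((y0 - Y q) / (Y q' - Y q)) hτ0 hlt
      (div_pos (by linarith) hden) ((div_lt_one hden).2 (by linarith)) (by
        rw [h1, hqx, hqx']
        ring) (by
        rw [← hy0]
        field_simp
        ring)
    rw [hqx, hqx', sub_self, mul_zero, mul_zero, zero_add] at key
    have h5 : 0 < F * ((Y p' - Y p) * (Y q' - Y q)) :=
      mul_pos hd.F_pos (mul_pos (by linarith) hden)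
    linarith

/-- The case of an edge going up and to the right. -/
theorem Rect.through_pos {H : SimpleGraph V} {X Y : V → ℝ} {E F x1 x2 y1 y2 : ℝ}
    (hd : ADraw H X Y E F) (hr : Rect H X Y x1 x2 y1 y2) {p p' : V} (hp : H.Adj p p')
    (hX : X p < X p') (hY : Y p < Y p') {s : ℝ}
    (hs0 : 0 ≤ s) (hs1 : s ≤ 1) (h1 : x1 < (1 - s) * X p + s * X p')
    (h2 : (1 - s) * X p + s * X p' < x2) (h3 : y1 < (1 - s) * Y p + s * Y p')
    (h4 : (1 - s) * Y p + s * Y p' < y2) :
    x1 < X p' ∧ X p' < x2 ∧ y1 < Y p' ∧ Y p' < y2 := by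
  have hX1 : (1 - s) * X p + s * X p' ≤ X p' := by nlinarith
  have hY1 : (1 - s) * Y p + s * Y p' ≤ Y p' := by nlinarith
  have hdx : 0 < X p' - X p := by linarith
  have hdy : 0 < Y p' - Y p := by linarith
  set a : ℝ := (x2 - X p) / (X p' - X p) with ha
  set c : ℝ := (y2 - Y p) / (Y p' - Y p) with hc
  have hax : (1 - a) * X p + a * X p' = x2 := by
    rw [ha]
    field_simp
    ring
  have hcy : (1 - c) * Y p + c * Y p' = y2 := by
    rw [hc]
    field_simp
    ring
  have hsa : s < a := by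
    rw [ha, lt_div_iff₀ hdx]
    linarith
  have hsc : s < c := by
    rw [hc, lt_div_iff₀ hdy]
    linarith
  have nox : x2 ≤ X p' → a ≤ c → False := by
    intro h5 h6
    have ha1 : a ≤ 1 := by
      rw [ha, div_le_one hdx]
      linarith
    refine hr.no_exit hd hp hX hY (lt_of_le_of_lt hs0 hsa) ha1 hax ?_ ?_
    · nlinarith
    · nlinarith
  have noy : y2 ≤ Y p' → c ≤ a → False := by
    intro h5 h6
    have hc1 : c ≤ 1 := by
      rw [hc, div_le_one hdy]
      linarith
    refine hr.swap.no_exit hd.swap hp hY hX (lt_of_le_of_lt hs0 hsc) hc1 hcy ?_ ?_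
    · nlinarith
    · nlinarith
  have hx2 : X p' < x2 := by
    by_contra h5
    rw [not_lt] at h5
    rcases le_total a c with h6 | h6
    · exact nox h5 h6
    · refine noy ?_ h6
      have ha1 : a ≤ 1 := by
        rw [ha, div_le_one hdx]
        linarith
      have hc1 : c ≤ 1 := h6.trans ha1
      rw [← hcy]
      nlinarith
  have hy2 : Y p' < y2 := by
    by_contra h5
    rw [not_lt] at h5
    rcases le_total a c with h6 | h6
    · refine nox ?_ h6
      have hc1 : c ≤ 1 := by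
        rw [hc, div_le_one hdy]
        linarith
      have ha1 : a ≤ 1 := h6.trans hc1
      rw [← hax]
      nlinarith
    · exact noy h5 h6
  exact ⟨by linarith, hx2, by linarith, hy2⟩

theorem Rect.through {H : SimpleGraph V} {X Y : V → ℝ} {E F x1 x2 y1 y2 : ℝ}
    (hd : ADraw H X Y E F) (hr : Rect H X Y x1 x2 y1 y2) {p p' : V} (hp : H.Adj p p') {s : ℝ}
    (hs0 : 0 ≤ s) (hs1 : s ≤ 1) (h1 : x1 < (1 - s) * X p + s * X p')
    (h2 : (1 - s) * X p + s * X p' < x2) (h3 : y1 < (1 - s) * Y p + s * Y p')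
    (h4 : (1 - s) * Y p + s * Y p' < y2) :
    (x1 < X p' ∧ X p' < x2 ∧ y1 < Y p' ∧ Y p' < y2) ∨ X p' = X p ∨ Y p' = Y p := by
  rcases lt_trichotomy (X p) (X p') with hX | hX | hX
  · rcases lt_trichotomy (Y p) (Y p') with hY | hY | hY
    · exact Or.inl (hr.through_pos hd hp hX hY hs0 hs1 h1 h2 h3 h4)
    · exact Or.inr (Or.inr hY.symm)
    · -- up to the sign of `Y`
      have := (hr.swap.negX.swap).through_pos (negX_draw hd.swap).swap hp (s := s) hX
        (by linarith) hs0 hs1 h1 h2 (by linarith) (by linarith)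
      exact Or.inl ⟨this.1, this.2.1, by linarith [this.2.2.2], by linarith [this.2.2.1]⟩
  · exact Or.inr (Or.inl hX.symm)
  · rcases lt_trichotomy (Y p) (Y p') with hY | hY | hY
    · have := (hr.negX).through_pos (negX_draw hd) hp (s := s) (by linarith)
        hY hs0 hs1 (by linarith) (by linarith) h3 h4
      exact Or.inl ⟨by linarith [this.2.1], by linarith [this.1], this.2.2.1, this.2.2.2⟩
    · exact Or.inr (Or.inr hY.symm)
    · have := (hr.negX.swap.negX.swap).through_pos (negX_draw (negX_draw hd).swap).swap hp (s := s)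
        (by linarith) (by linarith) hs0 hs1 (by linarith) (by linarith) (by linarith) (by linarith)
      exact Or.inl ⟨by linarith [this.2.1], by linarith [this.1], by linarith [this.2.2.2],
        by linarith [this.2.2.1]⟩

end Pool.Agent.Helper82.DG
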