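import Pool.Agent.Helper65.DG.Lines
import Pool.Agent.Helper65.DG.Rect
import Pool.Agent.Helper49.DG.Chain
import Pool.Agent.Helper84.DG.Quad

/-!
# Dark grids, module D: positions of the vertices of a grid
-/

set_option autoImplicit false

namespace Pool.Agent.Helper82.DG

open Pool.Agent.Helper18.RAC

variable {V : Type*} {H : SimpleGraph V} {X Y : V → ℝ} {E F a b : ℝ} {κ : GX → V} {M : ℕ}
  {c r i j : ℕ} {v p p' q : V}

/-- two neighbours on the same vertical ray are equal -/
theorem axis_y (hd : ADraw H X Y E F) (hp : H.Adj v p) (hq : H.Adj v q) (hXp : X p = X v)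
    (hXq : X q = X v) (hY : (Y v < Y p ∧ Y v < Y q) ∨ (Y p < Y v ∧ Y q < Y v)) : p = q := by
  by_contra hne
  have key : ∀ p q : V, H.Adj v p → H.Adj v q → X p = X v → X q = X v → p ≠ q →
      ((Y v < Y q ∧ Y q ≤ Y p) ∨ (Y p ≤ Y q ∧ Y q < Y v)) → False := by
    intro p q hp hq hXp hXq hne hY
    rcases hY with ⟨h1, h2⟩ | ⟨h1, h2⟩
    · have hden : 0 < Y p - Y v := by linarith
      refine hd.vtx v p q hp hq.ne' (Ne.symm hne) ((Y q - Y v) / (Y p - Y v))
        (div_nonneg (by linarith) hden.le) ((div_le_one hden).2 (by linarith)) ?_ ?_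
      · rw [hXp, hXq]
        ring
      · field_simp
        ring
    · have hden : 0 < Y v - Y p := by linarith
      refine hd.vtx v p q hp hq.ne' (Ne.symm hne) ((Y v - Y q) / (Y v - Y p))
        (div_nonneg (by linarith) hden.le) ((div_le_one hden).2 (by linarith)) ?_ ?_
      · rw [hXp, hXq]
        ring
      · field_simp
        ring
  rcases hY with ⟨h1, h2⟩ | ⟨h1, h2⟩
  · rcases le_total (Y p) (Y q) with h3 | h3
    · exact key q p hq hp hXq hXp (Ne.symm hne) (Or.inl ⟨h1, h3⟩)
    · exact key p q hp hq hXp hXq hne (Or.inl ⟨h2, h3⟩)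
  · rcases le_total (Y p) (Y q) with h3 | h3
    · exact key p q hp hq hXp hXq hne (Or.inr ⟨h3, h2⟩)
    · exact key q p hq hp hXq hXp (Ne.symm hne) (Or.inr ⟨h3, h1⟩)

/-- two neighbours on the same horizontal ray are equal -/
theorem axis_x (hd : ADraw H X Y E F) (hp : H.Adj v p) (hq : H.Adj v q) (hYp : Y p = Y v)
    (hYq : Y q = Y v) (hX : (X v < X p ∧ X v < X q) ∨ (X p < X v ∧ X q < X v)) : p = q :=
  axis_y hd.swap hp hq hYp hYq hX

/-- two vertices at one point are equal -/
theorem pt_eq_D (hd : ADraw H X Y E F) (hp : H.Adj v p) (hq : q ≠ p) (hX : X q = X v)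
    (hY : Y q = Y v) : q = v := by
  by_contra hne
  refine hd.vtx v p q hp hne hq 0 le_rfl zero_le_one ?_ ?_
  · rw [hX]
    ring
  · rw [hY]
    ring

theorem ne_sw (h : NE X Y v) : NE Y X v := by
  obtain ⟨h1, h2, h3⟩ := h
  exact ⟨h2, h1, by linarith⟩

theorem sw_sw (h : SW X Y a b v) : SW Y X b a v := by
  obtain ⟨h1, h2, h3⟩ := h
  exact ⟨h2, h1, by linarith⟩

namespace GDraw

/-! ### adjacencies -/

theorem adj_up0 (h : GDraw H X Y E F a b κ M) (hc : c < M) :
    H.Adj (κ (.v (.P false (2 * c)))) (κ (.v (.U false c))) :=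
  (h.hg.adj (.up false c) hc).symm

theorem adj_up1 (h : GDraw H X Y E F a b κ M) (hc : c < M) :
    H.Adj (κ (.v (.P true (2 * c)))) (κ (.v (.U true c))) :=
  (h.hg.adj (.up true c) hc).symm

theorem adj_pd0 (h : GDraw H X Y E F a b κ M) (hc : c < M) :
    H.Adj (κ (.v (.P false (2 * c + 1)))) (κ (.v (.D c 0))) :=
  h.hg.adj (.pd false c) hc

theorem adj_pd1 (h : GDraw H X Y E F a b κ M) (hc : c < M) :
    H.Adj (κ (.v (.P true (2 * c + 1)))) (κ (.v (.D 0 c))) :=
  h.hg.adj (.pd true c) hc

theorem adj_dr (h : GDraw H X Y E F a b κ M) (hc : c + 1 < M) (hr : r < M) :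
    H.Adj (κ (.v (.D c r))) (κ (.v (.D (c + 1) r))) :=
  h.hg.adj (.dd true r c) ⟨hr, hc⟩

theorem adj_dc (h : GDraw H X Y E F a b κ M) (hc : c < M) (hr : r + 1 < M) :
    H.Adj (κ (.v (.D c r))) (κ (.v (.D c (r + 1)))) :=
  h.hg.adj (.dd false c r) ⟨hc, hr⟩

theorem okP (σ : Bool) (hj : j < 2 * M) : (GN.P σ j).ok M := hj

theorem okD (hc : c < M) (hr : r < M) : (GN.D c r).ok M := ⟨hc, hr⟩

theorem D_inj (h : GDraw H X Y E F a b κ M) {c' r' : ℕ} (hc : c < M) (hr : r < M) (hc' : c' < M)
    (hr' : r' < M) (he : κ (.v (.D c r)) = κ (.v (.D c' r'))) : c = c' ∧ r = r' := by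
  have := h.hg.inj _ _ (okD hc hr) (okD hc' hr') he
  injection this with h1 h2
  exact ⟨h1, h2⟩

theorem D_ne_P (h : GDraw H X Y E F a b κ M) (σ : Bool) (hc : c < M) (hr : r < M)
    (hj : j < 2 * M) : κ (.v (.D c r)) ≠ κ (.v (.P σ j)) := by
  intro he
  have := h.hg.inj _ _ (okD hc hr) (okP σ hj) he
  cases this

/-! ### The first row -/

theorem row_NE (h : GDraw H X Y E F a b κ M) (h0 : NE X Y (κ (.v (.D 0 0)))) :
    ∀ c, c < M → NE X Y (κ (.v (.D c 0))) := by
  intro c
  induction c with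
  | zero =>
    intro _
    exact h0
  | succ c ih =>
    intro hc
    have hM := h.hg.hM
    have ih' := ih (by omega)
    have hu := h.hg.nX (.D (c + 1) 0) true (okD hc (by omega))
    have hw := h.hg.nX (.D (c + 1) 0) false (okD hc (by omega))
    have hw' := h.hg.nY (.D (c + 1) 0) false (okD hc (by omega))
    have ad := h.adj_dr (c := c) (r := 0) hc (by omega)
    rcases quad_NE h.hd h.hk ad ih' with e | e | ⟨e1, e2⟩ | ⟨e1, e2⟩ | ⟨e1, e2⟩
    · exact absurd e hu
    · exact absurd e hw
    · rcases quad_SE h.hd h.hk h.hs (h.adj_pd0 hc) (h.hP0 _ (by omega)) with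
        f | f | ⟨f1, f2⟩ | ⟨f1, f2⟩ | ⟨f1, f2⟩
      · exact absurd f hu
      · exact absurd f hw'
      · linarith
      · exact f2
      · linarith [f2.1]
    · -- straight below `D c 0`
      exfalso
      have hP := h.hP0 (2 * c + 1) (by omega)
      have hX : X (κ (.v (.D c 0))) = X (κ (.v (.P false (2 * c + 1)))) := by
        rcases quad_SE h.hd h.hk h.hs (h.adj_pd0 (c := c) (by omega)) hP with
          f | f | ⟨f1, f2⟩ | ⟨f1, f2⟩ | ⟨f1, f2⟩
        · exact absurd f (h.hg.nX (.D c 0) true (okD (by omega) (by omega)))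
        · exact absurd f (h.hg.nY (.D c 0) false (okD (by omega) (by omega)))
        · linarith [ih'.2.1]
        · exact f1
        · linarith [f2.1, ih'.1]
      have := axis_y h.hd ad (h.adj_pd0 (c := c) (by omega)).symm e1 hX.symm
        (Or.inr ⟨by linarith [e2.2.1, ih'.2.1], by linarith [hP.2.1, ih'.2.1]⟩)
      exact h.D_ne_P false hc (by omega) (by omega) this
    · exfalso
      rcases quad_SE h.hd h.hk h.hs (h.adj_pd0 hc) (h.hP0 _ (by omega)) with
        f | f | ⟨f1, f2⟩ | ⟨f1, f2⟩ | ⟨f1, f2⟩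
      · exact absurd f hu
      · exact absurd f hw'
      · linarith [e2.1]
      · linarith [f2.1, e2.2.1]
      · linarith [f2.2.1, e2.1]

theorem row_SW (h : GDraw H X Y E F a b κ M) (h0 : SW X Y a b (κ (.v (.D 0 0)))) :
    ∀ c, c < M → SW X Y a b (κ (.v (.D c 0))) := by
  intro c
  induction c with
  | zero =>
    intro _
    exact h0
  | succ c ih =>
    intro hc
    have hM := h.hg.hM
    have ih' := ih (by omega)
    have hu := h.hg.nX (.D (c + 1) 0) true (okD hc (by omega))
    have hu' := h.hg.nY (.D (c + 1) 0) true (okD hc (by omega))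
    have hw' := h.hg.nY (.D (c + 1) 0) false (okD hc (by omega))
    have ad := h.adj_dr (c := c) (r := 0) hc (by omega)
    rcases quad_SW h.hd h.hk h.hs ad ih' with e | e | ⟨e1, e2⟩ | ⟨e1, e2⟩ | ⟨e1, e2⟩
    · exact absurd e hu'
    · exact absurd e hw'
    · rcases quad_SE h.hd h.hk h.hs (h.adj_pd0 hc) (h.hP0 _ (by omega)) with
        f | f | ⟨f1, f2⟩ | ⟨f1, f2⟩ | ⟨f1, f2⟩
      · exact absurd f hu
      · exact absurd f hw'
      · linarith
      · linarith [f2.1]
      · exact f2
    · exfalso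
      rcases quad_SE h.hd h.hk h.hs (h.adj_pd0 hc) (h.hP0 _ (by omega)) with
        f | f | ⟨f1, f2⟩ | ⟨f1, f2⟩ | ⟨f1, f2⟩
      · exact absurd f hu
      · exact absurd f hw'
      · linarith [e2.1]
      · linarith [f2.1, e2.2.1]
      · linarith [f2.2.1, e2.1]
    · -- straight to the right of `D c 0`
      exfalso
      have hP := h.hP0 (2 * c + 1) (by omega)
      have hY : Y (κ (.v (.D c 0))) = Y (κ (.v (.P false (2 * c + 1)))) := by
        rcases quad_SE h.hd h.hk h.hs (h.adj_pd0 (c := c) (by omega)) hP with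
          f | f | ⟨f1, f2⟩ | ⟨f1, f2⟩ | ⟨f1, f2⟩
        · exact absurd f (h.hg.nX (.D c 0) true (okD (by omega) (by omega)))
        · exact absurd f (h.hg.nY (.D c 0) false (okD (by omega) (by omega)))
        · linarith [ih'.1]
        · linarith [f2.1, ih'.1]
        · exact f1
      have := axis_x h.hd ad (h.adj_pd0 (c := c) (by omega)).symm e1 hY.symm
        (Or.inl ⟨by linarith [e2.1, ih'.1], by linarith [hP.1, ih'.1]⟩)
      exact h.D_ne_P false hc (by omega) (by omega) this

/-- all dark vertices lie in one cell -/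
theorem D_cell {Q : V → Prop} (h : GDraw H X Y E F a b κ M)
    (hrow : ∀ c, c < M → Q (κ (.v (.D c 0)))) (hcol : ∀ r, r < M → Q (κ (.v (.D 0 r))))
    (hcom : ∀ z v v' : V, Q v → Q v' → v ≠ v' → H.Adj z v → H.Adj z v' →
      (∀ σ, z ≠ κ (.X σ)) → (∀ σ, z ≠ κ (.Y σ)) → Q z) :
    ∀ c r, c < M → r < M → Q (κ (.v (.D c r))) := by
  intro c
  induction c with
  | zero =>
    intro r _ hr
    exact hcol r hr
  | succ c ihc =>
    intro r
    induction r with
    | zero =>
      intro hc _
      exact hrow _ hc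
    | succ r ihr =>
      intro hc hr
      have h1 := ihc (r + 1) (by omega) hr
      have h2 := ihr hc (by omega)
      refine hcom _ _ _ h1 h2 ?_ (h.adj_dr hc hr).symm (h.adj_dc hc hr).symm
        (fun σ => h.hg.nX _ σ (okD hc hr)) (fun σ => h.hg.nY _ σ (okD hc hr))
      intro he
      have := (h.D_inj (by omega) hr hc (by omega) he).1
      omega

/-- all dark vertices lie in the cell `NE` -/
theorem D_NE (h : GDraw H X Y E F a b κ M) (hc : c < M) (hr : r < M) :
    NE X Y (κ (.v (.D c r))) := by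
  have hM := h.hg.hM
  have hu := h.hg.nX (.D 0 0) true (okD (by omega) (by omega))
  have hu' := h.hg.nY (.D 0 0) true (okD (by omega) (by omega))
  have hw := h.hg.nX (.D 0 0) false (okD (by omega) (by omega))
  have hw' := h.hg.nY (.D 0 0) false (okD (by omega) (by omega))
  rcases quad_SE h.hd h.hk h.hs (h.adj_pd0 (c := 0) (by omega)) (h.hP0 _ (by omega)) with
    f | f | ⟨f1, f2⟩ | ⟨f1, f2⟩ | ⟨f1, f2⟩
  · exact absurd f hu
  · exact absurd f hw'
  · exfalso
    rcases quad_NW h.hd h.hk h.hs (h.adj_pd1 (c := 0) (by omega)) (h.hP1 _ (by omega)) with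
      e | e | ⟨e1, e2⟩ | ⟨e1, e2⟩ | ⟨e1, e2⟩
    · exact hw e
    · exact hu' e
    · linarith
    · linarith [e2.2.1]
    · linarith [e2.1]
  · -- the cell `NE`
    have h1 := h.row_NE f2
    have h2 := h.swap.row_NE (ne_sw f2)
    refine h.D_cell (Q := NE X Y) h1 (fun r hr => ne_sw (h2 r hr)) ?_ c r hc hr
    intro z v v' hv hv' hne hz hz' n1 n2
    rcases common_NE h.hd h.hk h.hs hv hv' hne hz hz' with e | e | e
    · exact absurd e (n1 true)
    · exact absurd e (n1 false)
    · exact e
  · exfalso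
    have h1 := h.row_SW f2
    have h2 := h.swap.row_SW (sw_sw f2)
    have h3 := h.D_cell (Q := SW X Y a b) h1 (fun r hr => sw_sw (h2 r hr)) (by
      intro z v v' hv hv' hne hz hz' n1 n2
      rcases common_SW h.hd h.hk h.hs hv hv' hne hz hz' with e | e | e
      · exact absurd e (n2 true)
      · exact absurd e (n2 false)
      · exact e) (M - 1) (M - 1) (by omega) (by omega)
    linarith [h3.1, h.hDD.1]

theorem X_U (h : GDraw H X Y E F a b κ M) (hc : c < M) :
    X (κ (.v (.U false c))) = X (κ (.v (.P false (2 * c)))) := by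
  have hU := h.hU false c hc
  rcases quad_SE h.hd h.hk h.hs (h.adj_up0 hc) (h.hP0 _ (by omega)) with
    f | f | ⟨f1, f2⟩ | ⟨f1, f2⟩ | ⟨f1, f2⟩
  · exact absurd f (h.hg.nX (.U false c) true hc)
  · exact absurd f (h.hg.nY (.U false c) false hc)
  · linarith [hU.2.1]
  · exact f1
  · linarith [f2.1, hU.1]

theorem Y_U (h : GDraw H X Y E F a b κ M) (hc : c < M) :
    Y (κ (.v (.U true c))) = Y (κ (.v (.P true (2 * c)))) := h.swap.X_U hc

theorem X_D0 (h : GDraw H X Y E F a b κ M) (hc : c < M) :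
    X (κ (.v (.D c 0))) = X (κ (.v (.P false (2 * c + 1)))) := by
  have hM := h.hg.hM
  have hD := h.D_NE (c := c) (r := 0) hc (by omega)
  rcases quad_SE h.hd h.hk h.hs (h.adj_pd0 hc) (h.hP0 _ (by omega)) with
    f | f | ⟨f1, f2⟩ | ⟨f1, f2⟩ | ⟨f1, f2⟩
  · exact absurd f (h.hg.nX (.D c 0) true (okD hc (by omega)))
  · exact absurd f (h.hg.nY (.D c 0) false (okD hc (by omega)))
  · linarith [hD.2.1]
  · exact f1
  · linarith [f2.1, hD.1]

theorem Y_D0 (h : GDraw H X Y E F a b κ M) (hr : r < M) :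
    Y (κ (.v (.D 0 r))) = Y (κ (.v (.P true (2 * r + 1)))) := h.swap.X_D0 hr

theorem X_step (h : GDraw H X Y E F a b κ M) (hj : j + 1 < 2 * M) :
    X (κ (.v (.P false j))) < X (κ (.v (.P false (j + 1)))) := by
  classical
  have hM := h.hg.hM
  have hb := h.hk.b_pos
  refine chain_mono (negX_draw h.hd.swap).swap (w := κ (.Y false)) (u := κ (.X true)) (h := b)
    (e := 1) (n := 2 * M) (P := fun j => κ (.v (.P false j)))
    (P' := fun j => if j % 2 = 0 then κ (.v (.U false (j / 2))) else κ (.v (.D (j / 2) 0)))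
    (C := fun j ε => κ (.v (.C false j ε))) h.hk.Xw' ?_ h.hk.Xu ?_ ?_ ?_ ?_ ?_ ?_ ?_ ?_ ?_ ?_ ?_
    ?_ ?_ j hj
  · change -Y _ = b
    rw [h.hk.Yw']
    ring
  · change -Y _ = 0
    rw [h.hk.Yu]
    ring
  · intro j hj
    obtain ⟨h1, h2, h3⟩ := h.hP0 j hj
    refine ⟨h1, ?_, ?_, ?_⟩
    · by_contra h4
      rw [not_lt] at h4
      nlinarith
    · change 0 < -Y _
      linarith
    · change -Y _ < b
      nlinarith
  · intro j ε hj
    obtain ⟨h1, h2, h3⟩ := h.hC0 j ε hj
    refine ⟨h1, ?_, ?_⟩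
    · change 0 < -Y _
      linarith
    · change -Y _ < b
      nlinarith
  · intro j hj
    by_cases he : j % 2 = 0
    · obtain ⟨c, rfl⟩ : ∃ c, j = 2 * c := ⟨j / 2, by omega⟩
      have hcM : c < M := by omega
      have e1 : 2 * c / 2 = c := by omega
      simp only [if_pos he, e1]
      have hU := h.hU false c hcM
      exact ⟨h.X_U hcM, by linarith [hU.2.1]⟩
    · obtain ⟨c, rfl⟩ : ∃ c, j = 2 * c + 1 := ⟨j / 2, by omega⟩
      have hcM : c < M := by omega
      have e1 : (2 * c + 1) / 2 = c := by omega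
      simp only [if_neg he, e1]
      have hD := h.D_NE (c := c) (r := 0) hcM (by omega)
      exact ⟨h.X_D0 hcM, by linarith [hD.2.1]⟩
  · intro j hj
    exact h.hg.adj (.yp false j) hj
  · intro j hj
    by_cases he : j % 2 = 0
    · obtain ⟨c, rfl⟩ : ∃ c, j = 2 * c := ⟨j / 2, by omega⟩
      have e1 : 2 * c / 2 = c := by omega
      simp only [if_pos he, e1]
      exact h.adj_up0 (by omega)
    · obtain ⟨c, rfl⟩ : ∃ c, j = 2 * c + 1 := ⟨j / 2, by omega⟩
      have e1 : (2 * c + 1) / 2 = c := by omega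
      simp only [if_neg he, e1]
      exact h.adj_pd0 (by omega)
  · intro j hj
    exact h.hg.adj (.pp false j) hj
  · intro j ε hj
    exact h.hg.adj (.pc false j ε) hj
  · intro j ε hj
    exact h.hg.adj (.pc' false j ε) hj
  · intro j hj
    exact h.hg.adj (.cc false j) hj
  · exact h.hg.adj (.xp false) trivial
  · intro i hi j hj he
    have := h.hg.inj _ _ (okP false hi) (okP false hj) he
    injection this
  · intro j ε m hj hm he
    have := h.hg.inj (.C false j ε) (.P false m) hj hm he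
    cases this

theorem X_lt (h : GDraw H X Y E F a b κ M) (hij : i < j) (hj : j < 2 * M) :
    X (κ (.v (.P false i))) < X (κ (.v (.P false j))) := by
  induction j with
  | zero => omega
  | succ j ih =>
    have h1 := h.X_step hj
    rcases Nat.lt_or_ge i j with h2 | h2
    · exact (ih h2 (by omega)).trans h1
    · have : i = j := by omega
      rw [this]
      exact h1

theorem Y_lt (h : GDraw H X Y E F a b κ M) (hij : i < j) (hj : j < 2 * M) :
    Y (κ (.v (.P true i))) < Y (κ (.v (.P true j))) := h.swap.X_lt hij hj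

/-- the long edges cross -/
theorem cross (h : GDraw H X Y E F a b κ M) (hc : c < M) (hr : r < M) :
    X (κ (.v (.U false c))) < X (κ (.v (.U true r))) ∧
      Y (κ (.v (.U true r))) < Y (κ (.v (.U false c))) := by
  obtain ⟨h1, h2, h3⟩ := h.hU false c hc
  obtain ⟨g1, g2, g3⟩ := h.hU true r hr
  have hB := h.hP0 (2 * c) (by omega)
  have hL := h.hP1 (2 * r) (by omega)
  refine lines_cross h.hd (w := κ (.X false)) (u := κ (.X true)) (h := 1) (e := 1)
    (B := κ (.v (.P false (2 * c)))) (L := κ (.v (.P true (2 * r)))) h.hk.Xw h.hk.Yw h.hk.Xu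
    h.hk.Yu ⟨h1, by linarith, h2, by linarith⟩ ⟨g1, by linarith, g2, by linarith⟩
    ⟨(h.X_U hc).symm, hB.2.1⟩ ⟨(h.Y_U hr).symm, hL.2.1⟩ (h.hg.adj (.xu false c) hc)
    (h.adj_up0 hc).symm (h.hg.adj (.xu true r) hr) (h.adj_up1 hr).symm ?_
  intro he
  have := h.hg.inj (.U false c) (.U true r) hc hr he
  cases this

theorem rect (h : GDraw H X Y E F a b κ M) (hc : c + 1 < M) (hr : r + 1 < M) :
    Rect H X Y (X (κ (.v (.P false (2 * c))))) (X (κ (.v (.P false (2 * c + 2)))))
      (Y (κ (.v (.P true (2 * r))))) (Y (κ (.v (.P true (2 * r + 2))))) where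
  hx := h.X_lt (by omega) (by omega)
  hy := h.Y_lt (by omega) (by omega)
  l := by
    have h1 := h.hP0 (2 * c) (by omega)
    have h2 := h.hP1 (2 * r) (by omega)
    refine ⟨_, _, h.adj_up0 (c := c) (by omega), rfl, h.X_U (by omega), by linarith [h1.2.1, h2.1],
      ?_⟩
    have h3 := h.Y_U (c := r + 1) hr
    have h4 := (h.cross (c := c) (r := r + 1) (by omega) hr).2
    rw [h3] at h4
    exact h4
  r := by
    have h1 := h.hP0 (2 * (c + 1)) (by omega)
    have h2 := h.hP1 (2 * r) (by omega)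
    refine ⟨_, _, h.adj_up0 (c := c + 1) hc, rfl, h.X_U hc, by linarith [h1.2.1, h2.1], ?_⟩
    have h3 := h.Y_U (c := r + 1) hr
    have h4 := (h.cross (c := c + 1) (r := r + 1) hc hr).2
    rw [h3] at h4
    exact h4
  b := by
    have h1 := h.hP1 (2 * r) (by omega)
    have h2 := h.hP0 (2 * c) (by omega)
    refine ⟨_, _, h.adj_up1 (c := r) (by omega), rfl, h.Y_U (by omega),
      by linarith [h1.2.1, h2.1], ?_⟩
    have h3 := h.X_U (c := c + 1) hc
    have h4 := (h.cross (c := c + 1) (r := r) hc (by omega)).1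
    rw [h3] at h4
    exact h4
  t := by
    have h1 := h.hP1 (2 * (r + 1)) (by omega)
    have h2 := h.hP0 (2 * c) (by omega)
    refine ⟨_, _, h.adj_up1 (c := r + 1) hr, rfl, h.Y_U hr, by linarith [h1.2.1, h2.1], ?_⟩
    have h3 := h.X_U (c := c + 1) hc
    have h4 := (h.cross (c := c + 1) (r := r + 1) hc hr).1
    rw [h3] at h4
    exact h4

/-- an edge from a point at the centre of a rectangle -/
theorem step (h : GDraw H X Y E F a b κ M) (hc : c + 1 < M) (hr : r + 1 < M)
    (hp : H.Adj p p') (hX : X p = X (κ (.v (.P false (2 * c + 1)))))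
    (hY : Y p = Y (κ (.v (.P true (2 * r + 1))))) :
    (X (κ (.v (.P false (2 * c)))) < X p' ∧ X p' < X (κ (.v (.P false (2 * c + 2)))) ∧
      Y (κ (.v (.P true (2 * r)))) < Y p' ∧ Y p' < Y (κ (.v (.P true (2 * r + 2))))) ∨
    X p' = X (κ (.v (.P false (2 * c + 1)))) ∨ Y p' = Y (κ (.v (.P true (2 * r + 1)))) := by
  have h1 := h.X_lt (i := 2 * c) (j := 2 * c + 1) (by omega) (by omega)
  have h2 := h.X_lt (i := 2 * c + 1) (j := 2 * c + 2) (by omega) (by omega)
  have h3 := h.Y_lt (i := 2 * r) (j := 2 * r + 1) (by omega) (by omega)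
  have h4 := h.Y_lt (i := 2 * r + 1) (j := 2 * r + 2) (by omega) (by omega)
  have := (h.rect hc hr).through h.hd hp (s := 0) le_rfl zero_le_one (by
      rw [hX]
      linarith) (by
      rw [hX]
      linarith) (by
      rw [hY]
      linarith) (by
      rw [hY]
      linarith)
  rw [hX, hY] at this
  exact this

theorem pos_row (h : GDraw H X Y E F a b κ M) :
    ∀ c, c + 1 < M → Y (κ (.v (.D c 0))) = Y (κ (.v (.P true 1))) := by
  have hM := h.hg.hM
  intro c
  induction c with
  | zero =>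
    intro _
    exact h.Y_D0 (r := 0) (by omega)
  | succ c ih =>
    intro hc
    have ih' := ih (by omega)
    rcases h.step (c := c) (r := 0) (by omega) (by omega)
      (h.adj_dr (c := c) (r := 0) (by omega) (by omega)) (h.X_D0 (by omega)) ih' with
      e | e | e
    · exfalso
      have h1 := h.X_D0 (c := c + 1) (by omega)
      have h2 := h.X_lt (i := 2 * c + 2) (j := 2 * (c + 1) + 1) (by omega) (by omega)
      linarith [e.2.1]
    · exfalso
      have h1 := h.X_D0 (c := c + 1) (by omega)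
      have h2 := h.X_lt (i := 2 * c + 1) (j := 2 * (c + 1) + 1) (by omega) (by omega)
      linarith
    · exact e

theorem pos_col (h : GDraw H X Y E F a b κ M) :
    ∀ r, r + 1 < M → X (κ (.v (.D 0 r))) = X (κ (.v (.P false 1))) := h.swap.pos_row

theorem pos_all (h : GDraw H X Y E F a b κ M) : ∀ c r, c + 1 < M → r + 1 < M →
    X (κ (.v (.D c r))) = X (κ (.v (.P false (2 * c + 1)))) ∧
      Y (κ (.v (.D c r))) = Y (κ (.v (.P true (2 * r + 1)))) := by
  have hM := h.hg.hM
  intro c
  induction c with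
  | zero =>
    intro r _ hr
    exact ⟨h.pos_col r hr, h.Y_D0 (by omega)⟩
  | succ c ihc =>
    intro r
    induction r with
    | zero =>
      intro hc _
      exact ⟨h.X_D0 (by omega), h.pos_row _ hc⟩
    | succ r ihr =>
      intro hc hr
      obtain ⟨a1, a2⟩ := ihc (r + 1) (by omega) hr
      obtain ⟨b1, b2⟩ := ihr hc (by omega)
      obtain ⟨d1, d2⟩ := ihc r (by omega) (by omega)
      have x1 := h.X_lt (i := 2 * c + 1) (j := 2 * c + 2) (by omega) (by omega)
      have x2 := h.X_lt (i := 2 * c + 2) (j := 2 * c + 3) (by omega) (by omega)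
      have y1 := h.Y_lt (i := 2 * r + 1) (j := 2 * r + 2) (by omega) (by omega)
      have y2 := h.Y_lt (i := 2 * r + 2) (j := 2 * r + 3) (by omega) (by omega)
      have s1 := h.step (c := c) (r := r + 1) (by omega) hr
        (h.adj_dr (c := c) (r := r + 1) (by omega) (by omega)) a1 a2
      have s2 := h.step (c := c + 1) (r := r) hc (by omega)
        (h.adj_dc (c := c + 1) (r := r) (by omega) (by omega)) b1 b2
      change _ ∨ _ ∨ Y _ = Y (κ (.v (.P true (2 * r + 3)))) at s1
      change _ ∨ X _ = X (κ (.v (.P false (2 * c + 3)))) ∨ _ at s2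
      change _ = X (κ (.v (.P false (2 * c + 3)))) ∧ _ = Y (κ (.v (.P true (2 * r + 3))))
      rcases s1 with ⟨e1, e2, e3, e4⟩ | e | e
      · exfalso
        have e3' : Y (κ (.v (.P true (2 * r + 2)))) < _ := e3
        rcases s2 with ⟨f1, f2, f3, f4⟩ | f | f
        · have f1' : X (κ (.v (.P false (2 * c + 2)))) < _ := f1
          linarith
        · linarith
        · linarith
      · exfalso
        rcases s2 with ⟨f1, f2, f3, f4⟩ | f | f
        · have f1' : X (κ (.v (.P false (2 * c + 2)))) < _ := f1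
          linarith
        · linarith
        · have hne : κ (.v (.D (c + 1) (r + 1))) ≠ κ (.v (.D c (r + 1))) := by
            intro he
            have := (h.D_inj (by omega) (by omega) (by omega) (by omega) he).1
            omega
          have := pt_eq_D h.hd (h.adj_dc (c := c) (r := r) (by omega) (by omega)) hne
            (e.trans d1.symm) (f.trans d2.symm)
          have := (h.D_inj (by omega) (by omega) (by omega) (by omega) this).1
          omega
      · rcases s2 with ⟨f1, f2, f3, f4⟩ | f | f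
        · exfalso
          linarith
        · exact ⟨f, e⟩
        · exfalso
          linarith

theorem pos (h : GDraw H X Y E F a b κ M) (hc : c + 1 < M) (hr : r + 1 < M) :
    X (κ (.v (.D c r))) = X (κ (.v (.P false (2 * c + 1)))) ∧
      Y (κ (.v (.D c r))) = Y (κ (.v (.P true (2 * r + 1)))) := h.pos_all c r hc hr

end GDraw

end Pool.Agent.Helper82.DG
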