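import Pool.Agent.Helper82.DG.Base

/-!
# Dark grids, leaf B: the two broken lines cross
-/

set_option autoImplicit false

namespace Pool.Agent.Helper82.DG

open Pool.Agent.Helper18.RAC

variable {V : Type*}

/-- One half of `lines_cross`. -/
theorem lines_cross_half {H : SimpleGraph V} {X Y : V → ℝ} {E F h e : ℝ} (hd : ADraw H X Y E F)
    {w u T B R L : V} (hw : X w = 0) (hw' : Y w = h) (hu : X u = e) (hu' : Y u = 0)
    (hT : 0 < X T ∧ X T < e ∧ 0 < Y T ∧ Y T < h) (hR : 0 < X R ∧ X R < e ∧ 0 < Y R ∧ Y R < h)
    (hB : X B = X T ∧ Y B < 0) (hL : Y L = Y R ∧ X L < 0)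
    (wT : H.Adj w T) (TB : H.Adj T B) (uR : H.Adj u R) (RL : H.Adj R L) (hne : T ≠ R) :
    X T < X R := by
  obtain ⟨hT1, hT2, hT3, hT4⟩ := hT
  obtain ⟨hR1, hR2, hR3, hR4⟩ := hR
  obtain ⟨hB1, hB2⟩ := hB
  obtain ⟨hL1, hL2⟩ := hL
  have hE := hd.E_pos
  have hF := hd.F_pos
  have wR : w ≠ R := by
    rintro rfl
    linarith
  have wL : w ≠ L := by
    rintro rfl
    linarith
  have wu : w ≠ u := by
    rintro rfl
    linarith
  have RB : R ≠ B := by
    rintro rfl
    linarith
  have Tu : T ≠ u := by
    rintro rfl
    linarith
  have uB : u ≠ B := by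
    rintro rfl
    linarith
  -- the edge `w T` does not meet the edge `R L` in an interior point
  have crs1 : ∀ s : ℝ, 0 < s → s < 1 → (1 - s) * Y w + s * Y T = Y R → s * X T < X R → False := by
    intro s hs0 hs1 h1 h2
    have h3 : 0 < s * X T := mul_pos hs0 hT1
    have hden : 0 < X R - X L := by linarith
    have key := hd.crs w T R L wT RL (by
      intro h4
      rw [Sym2.eq_iff] at h4
      rcases h4 with ⟨h4, -⟩ | ⟨h4, -⟩
      · exact wR h4
      · exact wL h4) s ((X R - s * X T) / (X R - X L)) hs0 hs1
      (div_pos (by linarith) hden) ((div_lt_one hden).2 (by linarith)) (by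
        rw [hw]
        field_simp
        ring) (by
        rw [h1, hL1]
        ring)
    rw [hw, hL1, sub_self, mul_zero, mul_zero, add_zero, sub_zero] at key
    have h5 : 0 < E * (X T * (X R - X L)) := mul_pos hE (mul_pos hT1 hden)
    nlinarith
  by_contra hcon
  rw [not_lt] at hcon
  rcases hcon.eq_or_lt with heq | hlt
  · -- `X R = X T`
    rcases lt_trichotomy (Y R) (Y T) with hy | hy | hy
    · have hden : 0 < Y T - Y B := by linarith
      refine hd.vtx T B R TB (Ne.symm hne) RB ((Y T - Y R) / (Y T - Y B))
        (div_nonneg (by linarith) hden.le) ((div_le_one hden).2 (by linarith)) ?_ ?_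
      · rw [hB1, heq]
        ring
      · field_simp
        ring
    · refine hd.vtx T B R TB (Ne.symm hne) RB 0 le_rfl zero_le_one ?_ ?_
      · rw [heq]
        ring
      · rw [hy]
        ring
    · have hden : 0 < h - Y T := by linarith
      have hs0 : 0 < (h - Y R) / (h - Y T) := div_pos (by linarith) hden
      have hs1 : (h - Y R) / (h - Y T) < 1 := (div_lt_one hden).2 (by linarith)
      refine crs1 _ hs0 hs1 ?_ ?_
      · rw [hw']
        field_simp
        ring
      · rw [heq]
        nlinarith
  · -- `X R < X T`
    have hden : 0 < e - X R := by linarith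
    set σ : ℝ := (X T - X R) / (e - X R) with hσ
    have hσ0 : 0 < σ := div_pos (by linarith) hden
    have hσ1 : σ < 1 := (div_lt_one hden).2 (by linarith)
    have hσx : (1 - σ) * X R + σ * e = X T := by
      rw [hσ]
      field_simp
      ring
    have hy0 : 0 < (1 - σ) * Y R := mul_pos (by linarith) hR3
    have hy1 : (1 - σ) * Y R < Y R := by nlinarith
    rcases lt_trichotomy ((1 - σ) * Y R) (Y T) with hy | hy | hy
    · -- crosses `T B`
      have hden' : 0 < Y T - Y B := by linarith
      have key := hd.crs R u T B uR.symm TB (by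
        intro h4
        rw [Sym2.eq_iff] at h4
        rcases h4 with ⟨-, h4⟩ | ⟨h4, -⟩
        · exact uB h4
        · exact RB h4) σ ((Y T - (1 - σ) * Y R) / (Y T - Y B)) hσ0 hσ1
        (div_pos (by linarith) hden') ((div_lt_one hden').2 (by linarith)) (by
          rw [hu, hσx, hB1]
          ring) (by
          rw [hu']
          field_simp
          ring)
      rw [hB1, hu', sub_self, mul_zero, mul_zero, zero_add, zero_sub] at key
      have h5 : 0 < F * (Y R * (Y T - Y B)) := mul_pos hF (mul_pos hR3 hden')
      nlinarith
    · -- `T` on `R u`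
      refine hd.vtx R u T uR.symm hne Tu σ hσ0.le hσ1.le ?_ ?_
      · rw [hu, hσx]
      · rw [hu', mul_zero, add_zero, hy]
    · have hden' : 0 < h - Y T := by linarith
      set s : ℝ := (h - Y R) / (h - Y T) with hs
      have hs0 : 0 < s := div_pos (by linarith) hden'
      have hs1 : s < 1 := (div_lt_one hden').2 (by linarith)
      have hsy : (1 - s) * h + s * Y T = Y R := by
        rw [hs]
        field_simp
        ring
      rcases lt_trichotomy (s * X T) (X R) with hx | hx | hx
      · exact crs1 s hs0 hs1 (by rw [hw', hsy]) hx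
      · refine hd.vtx w T R wT (Ne.symm wR) (Ne.symm hne) s hs0.le hs1.le ?_ ?_
        · rw [hw, mul_zero, zero_add, hx]
        · rw [hw', hsy]
      · -- `w T` crosses `R u`
        have hG1 : 0 < Y R * (s * X T - X R) := mul_pos hR3 (by linarith)
        have hG0 : Y T * (e - X R) - Y R * (e - X T) < 0 := by
          have h1 : (1 - σ) * (e - X R) = e - X T := by
            rw [hσ]
            field_simp
            ring
          have h2 : Y T * (e - X R) < (1 - σ) * Y R * (e - X R) := by nlinarith
          nlinarith
        -- value of `G` at the parameter `a`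
        set G0 : ℝ := Y R * (s * X T - X R) with hG0d
        set G1 : ℝ := Y R * (e - X T) - Y T * (e - X R) with hG1d
        have hG1' : 0 < G1 := by rw [hG1d]; linarith
        have hsum : 0 < G0 + G1 := by linarith
        set a : ℝ := s + (1 - s) * (G0 / (G0 + G1)) with ha
        have hq0 : 0 < G0 / (G0 + G1) := div_pos hG1 hsum
        have hq1 : G0 / (G0 + G1) < 1 := (div_lt_one hsum).2 (by linarith)
        have ha0 : s < a := by
          rw [ha]
          nlinarith
        have ha1 : a < 1 := by
          rw [ha]
          nlinarith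
        have hax0 : X R < a * X T := by nlinarith
        have hax1 : a * X T < e := by nlinarith
        -- the equation of the line
        have hG : ((1 - a) * h + a * Y T) * (e - X R) = Y R * (e - a * X T) := by
          have h1 : (G0 / (G0 + G1)) * (G0 + G1) = G0 := by
            field_simp
          have h2 : ((1 - a) * h + a * Y T) * (e - X R) - Y R * (e - a * X T) =
              (1 - G0 / (G0 + G1)) *
                (((1 - s) * h + s * Y T) * (e - X R) - Y R * (e - s * X T)) +
              (G0 / (G0 + G1)) * (Y T * (e - X R) - Y R * (e - X T)) := by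
            rw [ha]
            ring
          have h3 : ((1 - s) * h + s * Y T) * (e - X R) - Y R * (e - s * X T) = G0 := by
            rw [hsy, hG0d]
            ring
          have h4 : Y T * (e - X R) - Y R * (e - X T) = -G1 := by
            rw [hG1d]
            ring
          rw [h3, h4] at h2
          have h5 : (1 - G0 / (G0 + G1)) * G0 + (G0 / (G0 + G1)) * (-G1) = 0 := by
            have : (1 - G0 / (G0 + G1)) * G0 + (G0 / (G0 + G1)) * (-G1) =
                G0 - (G0 / (G0 + G1)) * (G0 + G1) := by ring
            rw [this, h1, sub_self]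
          linarith
        have key := hd.crs w T R u wT uR.symm (by
          intro h4
          rw [Sym2.eq_iff] at h4
          rcases h4 with ⟨h4, -⟩ | ⟨h4, -⟩
          · exact wR h4
          · exact wu h4) a ((a * X T - X R) / (e - X R)) (hs0.trans ha0) ha1
          (div_pos (by linarith) hden) ((div_lt_one hden).2 (by linarith)) (by
            rw [hw, hu]
            field_simp
            ring) (by
            rw [hw', hu', mul_zero, add_zero]
            have h6 : (1 - (a * X T - X R) / (e - X R)) * Y R * (e - X R) =
                Y R * (e - a * X T) := by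
              field_simp
              ring
            have h7 : ((1 - a) * h + a * Y T) * (e - X R) =
                (1 - (a * X T - X R) / (e - X R)) * Y R * (e - X R) := by
              rw [h6, hG]
            exact mul_right_cancel₀ hden.ne' h7)
        rw [hw, hw', hu, hu', sub_zero] at key
        have h8 : 0 < E * (X T * (e - X R)) := mul_pos hE (mul_pos hT1 hden)
        have h9 : 0 < F * ((h - Y T) * Y R) := mul_pos hF (mul_pos hden' hR3)
        nlinarith

theorem lines_cross {H : SimpleGraph V} {X Y : V → ℝ} {E F h e : ℝ} (hd : ADraw H X Y E F)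
    {w u T B R L : V} (hw : X w = 0) (hw' : Y w = h) (hu : X u = e) (hu' : Y u = 0)
    (hT : 0 < X T ∧ X T < e ∧ 0 < Y T ∧ Y T < h) (hR : 0 < X R ∧ X R < e ∧ 0 < Y R ∧ Y R < h)
    (hB : X B = X T ∧ Y B < 0) (hL : Y L = Y R ∧ X L < 0)
    (wT : H.Adj w T) (TB : H.Adj T B) (uR : H.Adj u R) (RL : H.Adj R L) (hne : T ≠ R) :
    X T < X R ∧ Y R < Y T := by
  refine ⟨lines_cross_half hd hw hw' hu hu' hT hR hB hL wT TB uR RL hne, ?_⟩
  exact lines_cross_half hd.swap hu' hu hw' hw ⟨hR.2.2.1, hR.2.2.2, hR.1, hR.2.1⟩
    ⟨hT.2.2.1, hT.2.2.2, hT.1, hT.2.1⟩ hL hB uR RL wT TB (Ne.symm hne)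

end Pool.Agent.Helper82.DG
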